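import Mathlib

/-! Project FC (helper55): FULL ANSWER (YES) to MP_6a819e_al, and more: THE FLAT COVER CONJECTURE FOR ACTS
HOLDS OVER EVERY MONOID. Statements of the lemma jobs, with complete proofs in the docstrings.

Overview. For an inclusion of right acts `A ⊆ B` say that it is relatively flat (`RF A B`) if for
all left acts `X ⊆ Y` the map from the pushout of `A ⊗ Y ← A ⊗ X → B ⊗ X` to `B ⊗ Y` is injective.
So `RF ∅ B` iff `B` is flat. This class of inclusions is closed under pushouts and unions of chains,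
and it is generated by its small members: if `RF A B` and `C ⊆ B` is closed under the solutions of
finite systems of equations then `RF (A ∩ C) C` and `RF (A ∪ C) B`. Hence precovers by the small
object argument (here: a type of infinitary terms), and covers since flat acts are closed under
directed colimits. -/

universe u

namespace Pool.Agent.Q55.FC

open MulOpposite

/-- The tensor product `A ⊗_S X` of a right act `A` and a left act `X` over the monoid `S`: the
quotient of `A × X` by the equivalence relation generated by `(a s, x) ~ (a, s x)`. -/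
def Tens (S : Type u) [Monoid S] (A X : Type u) [MulAction Sᵐᵒᵖ A] [MulAction S X] : Type u :=
  Quot fun p q : A × X => ∃ (a : A) (s : S) (x : X), p = (op s • a, x) ∧ q = (a, s • x)

/-- The map `A ⊗_S X → A ⊗_S Y` induced by a homomorphism `X → Y` of left acts. -/
def Tens.map (S : Type u) [Monoid S] (A : Type u) [MulAction Sᵐᵒᵖ A] {X Y : Type u} [MulAction S X]
    [MulAction S Y] (f : X →[S] Y) : Tens S A X → Tens S A Y :=
  Quot.map (fun p => (p.1, f p.2)) (by
    rintro _ _ ⟨a, s, x, rfl, rfl⟩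
    exact ⟨a, s, f x, rfl, by simp⟩)

/-- A right act `A` over the monoid `S` is flat if `A ⊗_S -` sends every injective homomorphism of
left acts to an injective map. -/
def IsFlat (S : Type u) [Monoid S] (A : Type u) [MulAction Sᵐᵒᵖ A] : Prop :=
  ∀ (X Y : Type u) [MulAction S X] [MulAction S Y] (f : X →[S] Y), Function.Injective f →
    Function.Injective (Tens.map S A f)

/-- `g : F → A` is a flat precover of the right act `A`: `F` is flat and every homomorphism `F' → A`
with `F'` flat factors through `g`. -/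
def IsFlatPrecover (S : Type u) [Monoid S] {F A : Type u} [MulAction Sᵐᵒᵖ F] [MulAction Sᵐᵒᵖ A]
    (g : F →[Sᵐᵒᵖ] A) : Prop :=
  IsFlat S F ∧ ∀ (F' : Type u) [MulAction Sᵐᵒᵖ F'] (h : F' →[Sᵐᵒᵖ] A), IsFlat S F' →
    ∃ f : F' →[Sᵐᵒᵖ] F, g.comp f = h

/-- `g : F → A` is a flat cover of the right act `A`: a flat precover such that every endomorphism
`f` of `F` with `g ∘ f = g` is an automorphism. -/
def IsFlatCover (S : Type u) [Monoid S] {F A : Type u} [MulAction Sᵐᵒᵖ F] [MulAction Sᵐᵒᵖ A]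
    (g : F →[Sᵐᵒᵖ] A) : Prop :=
  IsFlatPrecover S g ∧ ∀ f : F →[Sᵐᵒᵖ] F, g.comp f = g → Function.Bijective f

/-- `P` is a right subact -/
def RSub (S : Type u) [Monoid S] {B : Type u} [MulAction Sᵐᵒᵖ B] (P : Set B) : Prop :=
  ∀ (s : S), ∀ b ∈ P, op s • b ∈ P

/-- `Q` is a left subact -/
def LSub (S : Type u) [Monoid S] {Y : Type u} [MulAction S Y] (Q : Set Y) : Prop :=
  ∀ (s : S), ∀ y ∈ Q, s • y ∈ Q

/-- equality of `b ⊗ y` and `b' ⊗ y'` in `P ⊗ Q` (`P ⊆ B`, `Q ⊆ Y` subacts) -/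
def TE (S : Type u) [Monoid S] {B Y : Type u} [MulAction Sᵐᵒᵖ B] [MulAction S Y] (P : Set B)
    (Q : Set Y) : B × Y → B × Y → Prop :=
  Relation.EqvGen fun p q => ∃ a ∈ P, ∃ s : S, ∃ y ∈ Q, p = (op s • a, y) ∧ q = (a, s • y)

/-- `A ⊆ P` is relatively flat (`A`, `P` subacts of `B`) -/
structure RF (S : Type u) [Monoid S] {B : Type u} [MulAction Sᵐᵒᵖ B] (A P : Set B) : Prop where
  inj : ∀ (Y : Type u) [MulAction S Y], ∀ a ∈ A, ∀ a' ∈ A, ∀ y y' : Y,
    TE S P Set.univ (a, y) (a', y') → TE S A Set.univ (a, y) (a', y')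
  stab : ∀ (Y : Type u) [MulAction S Y] (X : Set Y), LSub S X → ∀ b ∈ P, ∀ x ∈ X, ∀ a ∈ A,
    ∀ y : Y, TE S P Set.univ (b, x) (a, y) → ∃ a' ∈ A, ∃ x' ∈ X, TE S P X (b, x) (a', x')
  rel : ∀ (Y : Type u) [MulAction S Y] (X : Set Y), LSub S X → ∀ b ∈ P, ∀ b' ∈ P, ∀ x ∈ X,
    ∀ x' ∈ X, TE S P Set.univ (b, x) (b', x') →
      TE S P X (b, x) (b', x') ∨ ∃ a ∈ A, ∃ x₁ ∈ X, TE S P X (b, x) (a, x₁)

/-- zigzags on the side of the right act -/
def ZB {S : Type u} [Monoid S] {B : Type u} [MulAction Sᵐᵒᵖ B] (P : Set B) :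
    List (Bool × S) → B → B → Prop
  | [], b, b' => b = b'
  | (true, s) :: w, b, b' => ∃ c ∈ P, b = op s • c ∧ ZB P w c b'
  | (false, s) :: w, b, b' => ZB P w (op s • b) b'

/-- zigzags on the side of the left act -/
def ZY {S : Type u} [Monoid S] {Y : Type u} [MulAction S Y] (Q : Set Y) :
    List (Bool × S) → Y → Y → Prop
  | [], y, y' => y = y'
  | (true, s) :: w, y, y' => ZY Q w (s • y) y'
  | (false, s) :: w, y, y' => ∃ z ∈ Q, y = s • z ∧ ZY Q w z y'

/-- `C` is closed under the solutions of systems of equations, relative to `A` -/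
structure Cl (S : Type u) [Monoid S] {B : Type u} [MulAction Sᵐᵒᵖ B] (A C : Set B) : Prop where
  sub : RSub S C
  two : ∀ w : List (Bool × S), ∀ b ∈ C, ∀ b' ∈ C, ZB Set.univ w b b' → ZB C w b b'
  one : ∀ w : List (Bool × S), ∀ b ∈ C, ∀ b', ZB Set.univ w b b' → ∃ b'' ∈ C, ZB C w b b''
  into : ∀ w : List (Bool × S), ∀ b ∈ C, ∀ b' ∈ A, ZB Set.univ w b b' →
    ∃ b'' ∈ A ∩ C, ZB C w b b''
  rel : ∀ w : List (Bool × S), ∀ b ∈ A ∩ C, ∀ b' ∈ A ∩ C, ZB A w b b' → ZB (A ∩ C) w b b'

/-- extension property of `g : F → A` for the small relatively flat inclusions -/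
def EP (S : Type u) [Monoid S] {F A : Type u} [MulAction Sᵐᵒᵖ F] [MulAction Sᵐᵒᵖ A]
    (g : F →[Sᵐᵒᵖ] A) : Prop :=
  ∀ (C : Type u) [MulAction Sᵐᵒᵖ C] (A₀ : Set C), RSub S A₀ → RF S A₀ Set.univ →
    (∃ i : C → ℕ × S, Function.Injective i) → ∀ (ψ : C →[Sᵐᵒᵖ] A) (v : A₀ → F),
    (∀ (s : S) (a a' : A₀), (a' : C) = op s • (a : C) → v a' = op s • v a) →
    (∀ a : A₀, g (v a) = ψ (a : C)) →
    ∃ v' : C →[Sᵐᵒᵖ] F, (∀ a : A₀, v' (a : C) = v a) ∧ ∀ c, g (v' c) = ψ c

/-- **FLA.** Flatness in terms of `TE`. PROOF. `Tens.map` is injective iff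
`(a, f x) ~ (a', f x')` in `A × Y` implies `(a, x) ~ (a', x')` in `A × X` (`Quot.eqvGen_exact`,
`Quot.eqvGen_sound`). Replace `X` by the subact `range f` of `Y` (and back: the inclusion of a subact, a
`SubMulAction S Y`); for `A = ∅` the conditions `inj`, `stab` are empty. -/
def S_Fla : Prop := ∀ (S : Type u) [Monoid S] (A : Type u) [MulAction Sᵐᵒᵖ A],
  IsFlat S A ↔ RF S (∅ : Set A) Set.univ

/-- **ZIG.** Equality in the tensor product by zigzags. PROOF. A step `(a s, y) → (a, s y)` is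
`(true, s)`, the reverse step `(a, s y) → (a s, y)` is `(false, s)`; `P` and `Q` are closed, so one stays
in `P × Q`. Induction over `Relation.EqvGen` (better: over `Relation.ReflTransGen` of the symmetric
closure, appending steps at the front), and induction on `w` for the converse. -/
def S_Zig : Prop := ∀ (S : Type u) [Monoid S] (B Y : Type u) [MulAction Sᵐᵒᵖ B] [MulAction S Y]
  (P : Set B) (Q : Set Y), RSub S P → LSub S Q → ∀ b ∈ P, ∀ y ∈ Q, ∀ (b' : B) (y' : Y),
    TE S P Q (b, y) (b', y') ↔ ∃ w : List (Bool × S), ZB P w b b' ∧ ZY Q w y y'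

/-- **UNI.** The main lemma. PROOF. Write `~` for `TE S univ univ`.
`RF (A ∪ C) univ`. `inj`: let `c₁ ⊗ y ~ c₂ ⊗ y'`. Both in `A`: `inj` of `A` and monotonicity. Both in `C`:
`S_Zig` and `two`. If `c ∈ C`, `a ∈ A`, `(c, y') ~ (a, y)` by the zigzag `w`: `into` gives `a₀ ∈ A ∩ C`
with `(c, y') ~ (a₀, y)` in `C ⊗ Y`; then `(a₀, y) ~ (a, y)`, so also in `A ⊗ Y` by `inj` of `A`.
`stab`: let `x ∈ X`, `(b, x) ~ (c, y)`. `c ∈ A`: `stab` of `A`. `c ∈ C`: by `one` there is `c' ∈ C` with
`(c, y) ~ (c', x)` in `C ⊗ Y`, so `(b, x) ~ (c', x)`; by `rel` of `A` either `(b, x)` and `(c', x)` are equal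
in `B ⊗ X`, done, or `(b, x)` is equal in `B ⊗ X` to some `(a, x₁)`, `a ∈ A`, done. `rel`: by `rel` of `A`.
`RF (A ∩ C) C`. `inj`: let `a, a' ∈ A ∩ C` be equal in `C ⊗ Y`, so in `B ⊗ Y`, so in `A ⊗ Y` (`inj` of
`A`), so in `(A ∩ C) ⊗ Y` (`S_Zig`, `Cl.rel`). `stab`: let `c ∈ C`, `(c, x)` equal to `(a, y)` in `C ⊗ Y`;
by `stab` of `A` it is equal in `B ⊗ X` to some `(a', x')`, `a' ∈ A`, `x' ∈ X`; by `into` (zigzag
`w` from `c` to `a'`, `ZY X w x x'`) there is `a'' ∈ A ∩ C` with `(c, x)` equal to `(a'', x')` in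
`C ⊗ X`. `rel`: let `(c, x)`, `(c', x')` be equal in `C ⊗ Y`. By `rel` of `A` they are equal in `B ⊗ X`,
hence in `C ⊗ X` (`S_Zig`, `two`), or `(c, x)` is equal in `B ⊗ X` to some `(a, x₁)`, and by `into` as
before to some `(a'', x₁)` in `C ⊗ X`. -/
def S_Uni : Prop := S_Zig.{u} → ∀ (S : Type u) [Monoid S] (B : Type u) [MulAction Sᵐᵒᵖ B]
  (A C : Set B), RSub S A → Cl S A C → RF S A Set.univ →
    RF S (A ∩ C) C ∧ RF S (A ∪ C) Set.univ

/-- **CLO.** Small closed subsets. PROOF. For every word `w` and all `b, b'` with `ZB univ w b b'` choose the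
list of the intermediate elements of such a zigzag; for every `w`, `b` for which there is `b'` with
`ZB univ w b b'` choose such a `b'` (and a zigzag), also with `b' ∈ A` if possible; for all `b, b'`
with `ZB A w b b'` choose a zigzag in `A`. `C` is the closure of `{b₀}` under these (finitary)
operations and the action of `S`: a set of terms in countably many times `|S|` (and finitely many more)
operation symbols; its cardinality is at most `max ℵ₀ #S = #(ℕ × S)`
(for instance `WType.cardinalMk_le_max_aleph0_of_finite`, or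
`FirstOrder.Language.Substructure.lift_card_closure_le`, or a union of an increasing sequence
of sets). -/
def S_Clo : Prop := ∀ (S : Type u) [Monoid S] (B : Type u) [MulAction Sᵐᵒᵖ B] (A : Set B),
  RSub S A → ∀ b₀ : B, ∃ C : Set B, b₀ ∈ C ∧ Cl S A C ∧ ∃ i : C → ℕ × S, Function.Injective i

/-- **CHA.** Unions of chains. PROOF. For (1) the conditions for the union `U`: `inj`: `a, a'` are in a
common `A ∈ c`. `stab`: `a ∈ A` for some `A ∈ c`. `rel`: take any `A ∈ c`. (2): a proof of `TE S U Q p q` uses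
finitely many steps (induction), so it is in some `P ∈ c` (given any `P₀ ∈ c` one may take
`P ⊇ P₀`); `inj`, `stab` are empty; `rel`: apply `rel` of a `P ∈ c` containing `b, b'` and
the equality; the second alternative is empty. -/
def S_Cha : Prop := ∀ (S : Type u) [Monoid S] (B : Type u) [MulAction Sᵐᵒᵖ B] (c : Set (Set B)),
  c.Nonempty → IsChain (· ⊆ ·) c → (∀ P ∈ c, RSub S P) →
  ((∀ P ∈ c, RF S P Set.univ) → RF S (⋃₀ c) Set.univ) ∧
  ((∀ P ∈ c, RF S (∅ : Set B) P) → RF S (∅ : Set B) (⋃₀ c))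

/-- **PUS.** Flat acts are closed under pushouts of relatively flat inclusions. PROOF.
`G' = G ∪ range v`. Fix `Y` and `X ⊆ Y`. For `p ∈ G' × Y` and `(g₁, y₁) ∈ G × Y` write `p ⇝ (g₁, y₁)` if
`p = (g₁, y₁)`, or `p = (v c, y)` with `c ∉ A₀`, `(c, y)` equal to `(a, y₁)` in `C ⊗ Y`, `a ∈ A₀`,
`g₁ = v a`. If `p ⇝ (g₁, y₁)` and `p ⇝ (g₂, y₂)` then these are equal in `G ⊗ Y` (`inj` of `A₀`, and apply
`v`; `v c ∉ G` for `c ∉ A₀` and `v` is injective there). Let `E p q` mean: (A) `p ⇝ p₁`, `q ⇝ q₁` and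
`p₁, q₁` are equal in `G ⊗ Y`; or (B) `p = (v c, y)`, `q = (v c', y')`, `c, c' ∉ A₀`, `(c, y)` and
`(c', y')` are equal in `C ⊗ Y`, and not equal there to any `(a, y₁)`, `a ∈ A₀`. `E` is symmetric and
transitive, and it contains the steps of `G' × Y`: `p = (d s, y)`, `q = (d, s y)`: if `d ∈ G` clear; if
`d = v c`, `c ∉ A₀`, `c s ∈ A₀`: `q ⇝ (v (c s), y) = p`; if `c s ∉ A₀`: if `(c, s y)` is equal in
`C ⊗ Y` to some `(a, y₁)`, then `p` and `q` both `⇝ (v a, y₁)`, otherwise (B). So `TE S G' univ ⊆ E` (on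
`G' × Y`). Now let `(g, x), (g', x') ∈ G' × X` be equal in `G' ⊗ Y`. Case (B): `rel` of `A₀` gives equality in
`C ⊗ X` (the second alternative contradicts (B)); apply `v`. Case (A): if `g ∈ G` put
`(g₁, x₁) = (g, x)`. If `g = v c`, `(c, x)` is equal to `(a, y₁)` in `C ⊗ Y`; by `stab` it is equal in
`C ⊗ X` to some `(a', x₁)`; put `g₁ = v a'`; `(a', x₁)` and `(a, y₁)` are equal in `A₀ ⊗ Y` (`inj`). So
`(g, x)` is equal in `G' ⊗ X` to `(g₁, x₁)` and in the same way `(g', x')` to `(g₂, x₂)`, and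
`(g₁, x₁)`, `(g₂, x₂)` in `G × X` are equal in `G ⊗ Y`, hence in `G ⊗ X` (`rel` of `RF ∅ G`). -/
def S_Pus : Prop := ∀ (S : Type u) [Monoid S] (C F : Type u) [MulAction Sᵐᵒᵖ C] [MulAction Sᵐᵒᵖ F]
  (A₀ : Set C) (G : Set F) (v : C → F), RSub S A₀ → RSub S G →
  (∀ (s : S) (c : C), v (op s • c) = op s • v c) → (∀ c, v c ∈ G ↔ c ∈ A₀) →
  Set.InjOn v A₀ᶜ → RF S A₀ Set.univ → RF S (∅ : Set F) G → RF S (∅ : Set F) (G ∪ Set.range v)

/-- **TRA.** Transfer along an injective homomorphism. PROOF. `TE S (j '' P) Q (j c, y) (j c', y')` iff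
`TE S P Q (c, y) (c', y')` (induction; an element related to some `(j c, y)` in `(range j) ⊗ Q` has
the form `(j c', y')`). -/
def S_Tra : Prop := ∀ (S : Type u) [Monoid S] (C B : Type u) [MulAction Sᵐᵒᵖ C] [MulAction Sᵐᵒᵖ B]
  (j : C →[Sᵐᵒᵖ] B), Function.Injective j → ∀ A₀ : Set C,
    RF S (j '' A₀) (Set.range j) ↔ RF S A₀ Set.univ

/-- **LIF.** The extension property for small inclusions implies the lifting property for all flat acts.
PROOF. Zorn's lemma (`zorn_subset_nonempty` or `zorn_subset`) for the subsets `Γ` of `F' × F` which are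
closed under the action, functional (`(x, y), (x, y') ∈ Γ → y = y'`), compatible (`g y = h x`) and
such that the domain `dom Γ` satisfies `RF S (dom Γ) univ`. `∅` is such a set; unions of chains:
`S_Cha` (1). Let `Γ` be maximal, `A = dom Γ`. If `b₀ ∉ A`, take `C ∋ b₀` from `S_Clo`, a right subact with the
action of `SubMulAction`; by `S_Uni` `RF (A ∩ C) C`, hence by `S_Tra` `RF A₀ univ` in the act `↥C` for
`A₀ = {c | (c : F') ∈ A}`. The map `A₀ → F` given by `Γ` extends to `v' : ↥C → F` by the extension property.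
`Γ ∪ {(c, v' c)}` is a larger set of this kind (its domain is `A ∪ C`, `S_Uni`): contradiction. So
`Γ` is the graph of a homomorphism. -/
def S_Lif : Prop := S_Zig.{u} → S_Uni.{u} → S_Clo.{u} → S_Cha.{u} → S_Tra.{u} →
  ∀ (S : Type u) [Monoid S] (F A : Type u) [MulAction Sᵐᵒᵖ F] [MulAction Sᵐᵒᵖ A]
    (g : F →[Sᵐᵒᵖ] A), EP S g → ∀ (F' : Type u) [MulAction Sᵐᵒᵖ F'] (h : F' →[Sᵐᵒᵖ] A),
    RF S (∅ : Set F') Set.univ → ∃ f : F' →[Sᵐᵒᵖ] F, g.comp f = h

/-- **WTY.** A flat act over `A` with the extension property. PROOF. Cells: a cell `j` is a set `K ⊆ ℕ × S`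
with a `MulAction Sᵐᵒᵖ ↥K`, a subset `A₀` of `↥K` with `RSub`, `RF A₀ univ`, and a homomorphism
`ψ : ↥K → A`; the cells form a type `J : Type u`. Let `T` be the inductive type with the one
constructor `mk (j : J) (v : A₀ j → T) (b : K j) (hb : b ∉ A₀ j)`. Define `act (mk j v b) s` by cases:
`v ⟨b s, _⟩` if `b s ∈ A₀ j`, and `mk j v (b s)` otherwise; `γ (mk j v b) = ψ b`; and by recursion
the predicate `Good (mk j v b)`: for all `a : A₀ j`, `Good (v a)`, `γ (v a) = ψ a`, and
`v (a s) = act (v a) s` for all `s`. The subtype `F = {t // Good t}` is a right act over `A` (`act` preserves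
`Good`; `act t 1 = t`, `act (act t s) s' = act t (s s')` for good `t`: if `b s ∈ A₀` use the equivariance of
`v`). EXTENSION: for `C, A₀, ψ, v` as in `EP` transport `C` to a subset of `ℕ × S` along the injection `i`
(`S_Tra` transfers `RF`; an equivalence `C ≃ range i`), take `v' b = v b` for `b ∈ A₀` and
`v' b = mk j v b` otherwise. FLATNESS: let `G ⊆ F` be maximal (Zorn) among the right subacts `G` with
`RF ∅ G` which are closed: `mk j v b ∈ G` implies `v a ∈ G` for all `a`, and `mk j v b' ∈ G` for all `b'`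
(`∅` is one; chains: `S_Cha` (2)). If `G` is not all of `F`, by induction on terms there is
`t = mk j v b ∉ G` with all `v a ∈ G` (take a minimal counterexample). `v` extends to `v' : ↥K → F`,
`v' b = mk j v b` for `b ∉ A₀`, injective there; `v' b ∉ G` for `b ∉ A₀` (closedness: otherwise
`t ∈ G`); by `S_Pus` `G ∪ range v'` is flat, and it is closed: contradiction. -/
def S_Wty : Prop := S_Pus.{u} → S_Cha.{u} → S_Tra.{u} →
  ∀ (S : Type u) [Monoid S] (A : Type u) [MulAction Sᵐᵒᵖ A],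
    ∃ (F : Type u) (_ : MulAction Sᵐᵒᵖ F) (g : F →[Sᵐᵒᵖ] A),
      RF S (∅ : Set F) Set.univ ∧ EP S g

/-- **DIR.** Flat acts are closed under directed colimits. PROOF. `D` is the quotient of `I × W` by
`(i, x) ~ (j, y)` iff `k i l x = k j l y` for some `l ≥ i, j`; the action, `γ` and the `ι i` are the
obvious ones. `D` is flat: `ι i x ⊗ y = ι j x' ⊗ y'` in `D ⊗ Y` iff for some `l ≥ i, j`
`k i l x ⊗ y = k j l x' ⊗ y'` in `W ⊗ Y` (each step of `D × Y` comes from a step of `W × Y` for large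
`l`; induction), for every left act `Y`. So the injectivity of `W ⊗ X → W ⊗ Y` gives the injectivity of
`D ⊗ X → D ⊗ Y`. -/
def S_Dir : Prop := ∀ (S : Type u) [Monoid S] (W A : Type u) [MulAction Sᵐᵒᵖ W]
  [MulAction Sᵐᵒᵖ A] (g : W →[Sᵐᵒᵖ] A) (I : Type u) [LinearOrder I] [Nonempty I]
  (k : I → I → (W →[Sᵐᵒᵖ] W)), (∀ i x, k i i x = x) →
  (∀ i j l, i ≤ j → j ≤ l → ∀ x, k j l (k i j x) = k i l x) →
  (∀ i j, i ≤ j → ∀ x, g (k i j x) = g x) → IsFlat S W →
  ∃ (D : Type u) (_ : MulAction Sᵐᵒᵖ D) (γ : D →[Sᵐᵒᵖ] A) (ι : I → (W →[Sᵐᵒᵖ] D)),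
    IsFlat S D ∧ (∀ i j, i ≤ j → ∀ x, ι j (k i j x) = ι i x) ∧ (∀ i x, γ (ι i x) = g x) ∧
    (∀ d, ∃ i x, ι i x = d) ∧ (∀ i x y, ι i x = ι i y → ∃ j, i ≤ j ∧ k i j x = k i j y)

/-- **REC.** Transfinite composition in a monoid. PROOF. Recursion on the well-founded order of `I`: define
`e m : E` and `p · m : I → E` (`p i m` for `i < m`) from the values for `j < m`. Let
`κ i j = Φ j (e j) * p i j` for `i < j < m`, `κ i i = 1`: a system on `J = {j | j < m}`; if `J` is not empty
and `κ` is functorial on `J`, the hypothesis gives a cocone `p i m` (`i < m`):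
`p j m * κ i j = p i m`, i.e. `p j m * Φ j (e j) * p i j = p i m` for `i < j < m` (choose one; otherwise put
`p i m = 1`). `e m = p i m * Φ i (e i) * e i` for a chosen `i < m` (`e m = 1` if there is none). By
induction on `m`: `κ` is functorial on `J`, since
`κ j l * κ i j = Φ l (e l) * (p j l * Φ j (e j) * p i j) = Φ l (e l) * p i l = κ i l`; and
`e m = p i m * Φ i (e i) * e i` for EVERY `i < m`, since for `i < j < m`
`p j m * Φ j (e j) * e j = p j m * Φ j (e j) * p i j * Φ i (e i) * e i = p i m * Φ i (e i) * e i`. Finally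
apply the hypothesis to `I` and `κ`: `c j * κ i j = c i`; `t = c i * Φ i (e i) * e i` does not depend on
`i` (same computation), and `c i = c j * Φ j (e j) * p i j` for `i < j`. -/
def S_Rec : Prop := ∀ (E : Type u) [Monoid E],
  (∀ (I : Type u) [LinearOrder I] [Nonempty I] (k : I → I → E), (∀ i, k i i = 1) →
    (∀ i j l, i ≤ j → j ≤ l → k j l * k i j = k i l) →
      ∃ c : I → E, ∀ i j, i ≤ j → c j * k i j = c i) →
  ∀ (I : Type u) [LinearOrder I] [WellFoundedLT I] [Nonempty I] (Φ : I → E → E),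
    ∃ (t : E) (e c : I → E), (∀ i, t = c i * Φ i (e i) * e i) ∧
      ∀ i j, i < j → ∃ d, c i = c j * Φ j (e j) * d

/-- **COV.** Covers from precovers. PROOF. For a flat precover `g : W → A` let `E` be the monoid of
the endomorphisms `f` of `W` with `g ∘ f = g`. The hypothesis of `S_Rec` holds for `E`: take the colimit
`D` of the system (`S_Dir`) and a homomorphism `D → W` over `A` (`g` is a precover).
STEP 1. There is `e ∈ E` such that for all `h ∈ E`: `h (e x) = h (e y)` implies `e x = e y`. `S_Rec` for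
`I = W × W` with some well-order (`exists_wellOrder`; if `W` is empty everything is trivial), and
`Φ (x, y) e` = some `h ∈ E` with `h (e x) = h (e y)` if there is one, and `1` otherwise; let `e = t`. If
`h (t x) = h (t y)`, `i = (x, y)`, then `h' = h * c i * Φ i (e i)` satisfies `h' (e i x) = h' (e i y)`, so
`Φ i (e i) (e i x) = Φ i (e i) (e i y)` and `t x = t y`.
STEP 2. Let `D` be the colimit of `W → W → ⋯` with all the maps `e` (`I = ULift ℕ`). `γ : D → A` is a flat
precover (compose with `ι 0`). Every homomorphism `r : D → W` over `A` is injective: let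
`r (ι n x) = r (ι n y)` (a common `n`); `h = r ∘ ι (n + 1) ∈ E` and `h (e x) = h (e y)`, so `e x = e y` and
`ι n x = ι n y`. Hence every endomorphism `f` of `D` over `A` is injective (compose with some
`r : D → W` over `A`).
STEP 3. Let `g : W → A` be a flat precover such that all the elements of `E` are injective. Then they are
surjective: let `f ∈ E` be not surjective; `S_Rec` for `I = Set W` with a well-order and `Φ = f`
(constant) gives injective `c i ∈ E`; choose `w i ∈ range (c i)`, `w i ∉ range (c i * f)`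
(`w i = c i z`, `z ∉ range f`). For `i < j`, `w i ∈ range (c i) ⊆ range (c j * f)`, so `w i ≠ w j`: an
injective map `Set W → W`, contradiction (`Function.cantor_injective`). -/
def S_Cov : Prop := S_Dir.{u} → S_Rec.{u} →
  ∀ (S : Type u) [Monoid S] (W A : Type u) [MulAction Sᵐᵒᵖ W] [MulAction Sᵐᵒᵖ A]
    (g : W →[Sᵐᵒᵖ] A), IsFlatPrecover S g →
    ∃ (F : Type u) (_ : MulAction Sᵐᵒᵖ F) (g' : F →[Sᵐᵒᵖ] A), IsFlatCover S g'

end Pool.Agent.Q55.FC
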